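import Pool.Agent.Q168.Cone.Main

/-!
Four independent uniform self-avoiding walks from the origin on the square lattice, of arbitrary
lengths, are pairwise disjoint (apart from the origin) with quasi-polynomial probability.
-/

set_option autoImplicit false

namespace Pool.Agent.Results.MP_8c6f77_pr.FourArms

/-- `w` is an `n`-step self-avoiding path on `ℤ²` from the origin. -/
def IsSAW (n : ℕ) (w : Fin (n + 1) → ℤ × ℤ) : Prop :=
  w 0 = (0, 0) ∧
  (∀ i : Fin n, |(w i.succ).1 - (w i.castSucc).1| + |(w i.succ).2 - (w i.castSucc).2| = 1) ∧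
  Function.Injective w

/-- `c_n`, the number of `n`-step self-avoiding paths on `ℤ²` from the origin -/
noncomputable def c (n : ℕ) : ℕ := Nat.card {w : Fin (n + 1) → ℤ × ℤ // IsSAW n w}

/-- the number of four-armed stars with centre `0` and arms of `n 0, n 1, n 2, n 3` steps: tuples of
self-avoiding paths from the origin, two of which have no common point except the origin -/
noncomputable def star (n : Fin 4 → ℕ) : ℕ :=
  Nat.card {w : (j : Fin 4) → Fin (n j + 1) → ℤ × ℤ // (∀ j, IsSAW (n j) (w j)) ∧
    ∀ j k, j ≠ k → ∀ i i', w j i = w k i' → w j i = (0, 0)}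

theorem isSAW_iff (n : ℕ) (ω : Fin (n + 1) → ℤ × ℤ) :
    IsSAW n ω ↔ ω ∈ Pool.Agent.H122R3.SX.walks n := by
  unfold IsSAW Pool.Agent.H122R3.SX.walks Pool.Agent.H122R3.SX.Adj
  constructor
  · rintro ⟨h1, h2, h3⟩
    refine ⟨h1, h3, fun i => ?_⟩
    rw [abs_sub_comm, abs_sub_comm (ω i.castSucc).2]
    exact h2 i
  · rintro ⟨h1, h2, h3⟩
    refine ⟨h1, fun i => ?_, h2⟩
    rw [abs_sub_comm, abs_sub_comm (ω i.succ).2]
    exact h3 i

theorem c_eq (n : ℕ) : c n = Pool.Agent.Q168.Cone.cc n := by
  unfold c Pool.Agent.Q168.Cone.cc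
  rw [← Nat.card_coe_set_eq]
  exact Nat.card_congr (Equiv.subtypeEquivRight (isSAW_iff n))

/-- **Theorem.** There is `K` such that for all lengths `n 0, n 1, n 2, n 3` four independent
uniform self-avoiding paths of these lengths from the origin of `ℤ²` are pairwise disjoint, apart
from the origin, with probability at least `exp (- K ∑ (log (n j + 2))^3)`. (The quotient of the
number of four-armed stars by the product of the numbers of paths is this probability.) -/
theorem result : ∃ K : ℝ, ∀ n : Fin 4 → ℕ,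
    Real.exp (-(K * ∑ j, Real.log ((n j : ℝ) + 2) ^ 3)) ≤ (star n : ℝ) / ∏ j, (c (n j) : ℝ) ∧
      (star n : ℝ) / ∏ j, (c (n j) : ℝ) ≤ 1 := by
  obtain ⟨K, -, hK⟩ := Pool.Agent.Q168.Cone.stars
  refine ⟨K, fun n => ?_⟩
  have h := hK n
  have e1 : star n = Nat.card {f : (j : Fin 4) → Fin (n j + 1) → ℤ × ℤ //
      (∀ j, f j ∈ Pool.Agent.H122R3.SX.walks (n j)) ∧
        ∀ j k, j ≠ k → ∀ i i', f j i = f k i' → f j i = 0} := by
    unfold star
    refine Nat.card_congr (Equiv.subtypeEquivRight fun f => ?_)
    simp only [isSAW_iff]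
    rfl
  have hpos : (0 : ℝ) < ∏ j, (c (n j) : ℝ) := by
    apply Finset.prod_pos
    intro j _
    rw [c_eq]
    exact_mod_cast Pool.Agent.Q168.Cone.cc_pos (n j)
  constructor
  · rw [le_div_iff₀ hpos, e1]
    refine le_trans (le_of_eq ?_) h
    congr 1
    · unfold Pool.Agent.Q168.Cone.los
      rw [← Real.exp_sum]
      congr 1
      rw [Finset.mul_sum, Finset.sum_neg_distrib]
    · exact Finset.prod_congr rfl fun j _ => by rw [c_eq]
  · rw [div_le_one hpos]
    have e2 : star n ≤ Nat.card ((j : Fin 4) → {w : Fin (n j + 1) → ℤ × ℤ // IsSAW (n j) w}) := by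
      have hf : ∀ j, Finite {w : Fin (n j + 1) → ℤ × ℤ // IsSAW (n j) w} := by
        intro j
        have := Pool.Agent.H122R3.SX.walks_finite (n j)
        refine Set.Finite.to_subtype (this.subset ?_)
        intro w hw
        exact (isSAW_iff _ w).1 hw
      refine Nat.card_le_card_of_injective
        (fun w => fun j => ⟨w.1 j, w.2.1 j⟩) ?_
      intro w w' h
      apply Subtype.ext
      funext j
      exact congrArg Subtype.val (congrFun h j)
    rw [Nat.card_pi] at e2
    exact_mod_cast e2

end Pool.Agent.Results.MP_8c6f77_pr.FourArms
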