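import Pool.Agent.Q234.HS.Tail2
import Pool.Agent.Q234.HS.Pairs

/-!
# Disjoint self-avoiding walks are rarely separated by a line

Two independent self-avoiding walks on `ℤ²` conditioned to be disjoint: the conditional probability
that a set in an open half-plane contains the first walk and avoids the second one is almost
polynomially small, on average over the ways to share the total length.
-/

set_option autoImplicit false

namespace Pool.Agent.Results.MP_8c6f77_pr.SeparatedWalks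

open Finset Filter Topology
open Pool.Agent.Q234.HS

/-- `w` is an `n`-step self-avoiding walk on `ℤ²` started at the origin. -/
def IsSAW (n : ℕ) (w : Fin (n + 1) → Fin 2 → ℤ) : Prop :=
  w 0 = 0 ∧ (∀ i : Fin n, ∑ k, |w i.succ k - w i.castSucc k| = 1) ∧ Function.Injective w

/-- The walks `w` and `w'` are disjoint: `w {1, …, k} ∩ w' {0, …, l} = ∅`. -/
def Disj {k l : ℕ} (w : Fin (k + 1) → Fin 2 → ℤ) (w' : Fin (l + 1) → Fin 2 → ℤ) : Prop :=
  ∀ i j, i ≠ 0 → w i ≠ w' j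

/-- Apart from the origin, `w` is in `U` and `w'` is outside of `U`. -/
def Sep (U : Set (Fin 2 → ℤ)) {k l : ℕ} (w : Fin (k + 1) → Fin 2 → ℤ)
    (w' : Fin (l + 1) → Fin 2 → ℤ) : Prop :=
  (∀ i, i ≠ 0 → w i ∈ U) ∧ ∀ j, j ≠ 0 → w' j ∉ U

/-- The probability that `U` separates two independent uniform self-avoiding walks with `k` and `l`
steps, given that they are disjoint. -/
noncomputable def sepProb (U : Set (Fin 2 → ℤ)) (k l : ℕ) : ℝ :=
  ({p : (Fin (k + 1) → Fin 2 → ℤ) × (Fin (l + 1) → Fin 2 → ℤ) |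
      (IsSAW k p.1 ∧ IsSAW l p.2) ∧ Disj p.1 p.2 ∧ Sep U p.1 p.2}.ncard : ℝ) /
    ({p : (Fin (k + 1) → Fin 2 → ℤ) × (Fin (l + 1) → Fin 2 → ℤ) |
      (IsSAW k p.1 ∧ IsSAW l p.2) ∧ Disj p.1 p.2}.ncard : ℝ)

/-- the level `a x + b y` -/
def lev (a b : ℤ) : (Fin 2 → ℤ) →+ ℤ where
  toFun v := a * v 0 + b * v 1
  map_zero' := by simp
  map_add' u v := by simp only [Pi.add_apply]; ring

theorem lev_le (a b : ℤ) (v : Fin 2 → ℤ) : |(lev a b v : ℝ)| ≤
    ((|a| + |b|).toNat : ℕ) * Real.sqrt (∑ k, ((v k : ℤ) : ℝ) ^ 2) := by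
  have h1 : ((|a| + |b|).toNat : ℝ) = |(a : ℝ)| + |(b : ℝ)| := by
    have h2 : ((|a| + |b|).toNat : ℤ) = |a| + |b| := Int.toNat_of_nonneg (by positivity)
    have h3 : (((|a| + |b|).toNat : ℤ) : ℝ) = ((|a| + |b| : ℤ) : ℝ) := by rw [h2]
    push_cast at h3
    exact h3
  have h2 : ∀ k : Fin 2, |(v k : ℝ)| ≤ Real.sqrt (∑ k, ((v k : ℤ) : ℝ) ^ 2) := fun k =>
    Real.abs_le_sqrt (single_le_sum (f := fun k => ((v k : ℤ) : ℝ) ^ 2)
      (fun k _ => sq_nonneg _) (mem_univ k))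
  have h3 : (lev a b v : ℝ) = a * v 0 + b * v 1 := by
    have : lev a b v = a * v 0 + b * v 1 := rfl
    rw [this]
    push_cast
    ring
  rw [h1, h3]
  calc |(a : ℝ) * v 0 + b * v 1| ≤ |(a : ℝ) * v 0| + |(b : ℝ) * v 1| := abs_add_le _ _
    _ = |(a : ℝ)| * |(v 0 : ℝ)| + |(b : ℝ)| * |(v 1 : ℝ)| := by rw [abs_mul, abs_mul]
    _ ≤ |(a : ℝ)| * Real.sqrt (∑ k, ((v k : ℤ) : ℝ) ^ 2) +
        |(b : ℝ)| * Real.sqrt (∑ k, ((v k : ℤ) : ℝ) ^ 2) := by
        gcongr
        · exact h2 0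
        · exact h2 1
    _ = _ := by ring

/-- **Theorem.** There are `κ > 0` and `K` such that for all integers `(a, b) ≠ (0, 0)`, every set
`U` of lattice points in the open half-plane `a x + b y > 0` and all `n ≥ 16`: the sum over
`k + l = n` of the conditional probabilities that `U` separates two independent self-avoiding walks
with `k` and `l` steps, given that they are disjoint, is at most
`K (|a| + |b|) n^{1 - κ / log log n}`. For instance `U` can be the half-plane: on average over the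
`n + 1` pairs `(k, l)`, the probability that the line `a x + b y = 0` separates the two disjoint
walks is at most `K (|a| + |b|) n^{- κ / log log n}`. -/
theorem result : ∃ κ K : ℝ, 0 < κ ∧ ∀ (a b : ℤ), (a, b) ≠ (0, 0) → ∀ U : Set (Fin 2 → ℤ),
    (∀ v ∈ U, 0 < a * v 0 + b * v 1) → ∀ n : ℕ, 16 ≤ n →
      ∑ p ∈ antidiagonal n, sepProb U p.1 p.2 ≤
        K * (|a| + |b| : ℤ) * (n : ℝ) ^ (1 - κ / Real.log (Real.log n)) := by
  obtain ⟨κ, K, hκ, _, hmain⟩ := Zd.sep2
  refine ⟨κ, K, hκ, fun a b hab U hU n hn => ?_⟩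
  have hL : 1 ≤ (|a| + |b|).toNat := by
    have h1 : 0 < |a| + |b| := by
      by_cases ha : a = 0
      · by_cases hb : b = 0
        · exact absurd (by rw [ha, hb]) hab
        · have := abs_pos.2 hb
          have := abs_nonneg a
          omega
      · have := abs_pos.2 ha
        have := abs_nonneg b
        omega
    omega
  have h1 := (hmain (lev a b) _ hL (lev_le a b) U hU).1 n hn
  have h2 : (((|a| + |b|).toNat : ℕ) : ℝ) = ((|a| + |b| : ℤ) : ℝ) := by
    have h2 : ((|a| + |b|).toNat : ℤ) = |a| + |b| := Int.toNat_of_nonneg (by positivity)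
    exact_mod_cast h2
  rw [h2] at h1
  have hc : (0 : ℝ) < N (Zd.St 2) Saw n := by exact_mod_cast Zd.c_pos (by omega : 0 < 2) n
  rw [← div_le_iff₀ hc] at h1
  refine le_trans (le_of_eq ?_) h1
  push_cast
  rw [sum_div]
  refine sum_congr rfl fun p hp => ?_
  rw [HasAntidiagonal.mem_antidiagonal] at hp
  have e1 := ncard_sep (Zd.St 2) U p.1 p.2
  have e2 := ncard_disj (Zd.St_neg 2) p.1 p.2
  rw [hp] at e2
  have e3 : {q : (Fin (p.1 + 1) → Fin 2 → ℤ) × (Fin (p.2 + 1) → Fin 2 → ℤ) |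
      (IsSAW p.1 q.1 ∧ IsSAW p.2 q.2) ∧ Disj q.1 q.2 ∧ Sep U q.1 q.2}.ncard =
      N (Zd.St 2) (InK U) p.1 * N (Zd.St 2) (OutK U) p.2 := e1
  have e4 : {q : (Fin (p.1 + 1) → Fin 2 → ℤ) × (Fin (p.2 + 1) → Fin 2 → ℤ) |
      (IsSAW p.1 q.1 ∧ IsSAW p.2 q.2) ∧ Disj q.1 q.2}.ncard = N (Zd.St 2) Saw n := e2
  unfold sepProb
  rw [e3, e4]
  push_cast
  ring

end Pool.Agent.Results.MP_8c6f77_pr.SeparatedWalks
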