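import Pool.Agent.Q78.UR.Star4

set_option autoImplicit false

/-!
# Mutually avoiding self-avoiding walks: dependence on each of the lengths
-/

namespace Pool.Agent.Results.MP_8c6f77_pr.StarRatios

open MeasureTheory Filter Topology

/-- the three lattices -/
inductive Lattice
  | square
  | hexagonal
  | triangular

/-- adjacency on `ℤ × ℤ`; the hexagonal lattice is drawn as a brick wall -/
def Adj : Lattice → ℤ × ℤ → ℤ × ℤ → Prop
  | .square => fun p q => q - p ∈ ({(1, 0), (-1, 0), (0, 1), (0, -1)} : Set (ℤ × ℤ))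
  | .hexagonal => fun p q => q - p = (1, 0) ∨ q - p = (-1, 0) ∨
      (q - p = (0, 1) ∧ Even (p.1 + p.2)) ∨ (q - p = (0, -1) ∧ Even (q.1 + q.2))
  | .triangular => fun p q =>
      q - p ∈ ({(1, 0), (-1, 0), (0, 1), (0, -1), (1, -1), (-1, 1)} : Set (ℤ × ℤ))

/-- lengths are compared modulo 2 on the bipartite lattices -/
def step : Lattice → ℕ
  | .square => 2
  | .hexagonal => 2
  | .triangular => 1

/-- self-avoiding paths with `m` steps from the origin, as lists of vertices -/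
def IsSAW (L : Lattice) (m : ℕ) (w : List (ℤ × ℤ)) : Prop :=
  w.length = m + 1 ∧ w.head? = some 0 ∧ w.Nodup ∧ w.IsChain (Adj L)

/-- their number -/
noncomputable def c (L : Lattice) (m : ℕ) : ℝ := Nat.card {w : List (ℤ × ℤ) // IsSAW L m w}

/-- stars with `k` arms in the set `D`: the arm `i` has `n i` steps, two arms meet at the origin
only -/
def IsStar {k : ℕ} (L : Lattice) (n : Fin k → ℕ) (D : Set (ℤ × ℤ)) (w : Fin k → List (ℤ × ℤ)) :
    Prop :=
  (∀ i, IsSAW L (n i) (w i)) ∧ (∀ i j, i ≠ j → ∀ x ∈ w i, x ∈ w j → x = 0) ∧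
    ∀ i, ∀ x ∈ w i, x ∈ D

/-- the number of stars in `D` -/
noncomputable def S {k : ℕ} (L : Lattice) (n : Fin k → ℕ) (D : Set (ℤ × ℤ)) : ℝ :=
  Nat.card {w : Fin k → List (ℤ × ℤ) // IsStar L n D w}

variable {Ω : Type} [MeasurableSpace Ω]

/-- the mean number of stars in the random set `D` with law `ν` -/
noncomputable def F {k : ℕ} (L : Lattice) (ν : Measure Ω) (D : Ω → Set (ℤ × ℤ)) (n : Fin k → ℕ) :
    ℝ := ∫ ω, S L n (D ω) ∂ν

/-- the probability that independent uniform self-avoiding paths with `n i` steps are pairwise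
disjoint, except for the origin, and contained in the independent random set `D` -/
noncomputable def p {k : ℕ} (L : Lattice) (ν : Measure Ω) (D : Ω → Set (ℤ × ℤ)) (n : Fin k → ℕ) :
    ℝ := F L ν D n / ∏ i, c L (n i)

/-- random sets -/
def IsRandomSet (D : Ω → Set (ℤ × ℤ)) : Prop := ∀ x, MeasurableSet {ω | x ∈ D ω}

/-- the lengths `n`, but with `m` steps in the arm `j` -/
def up {k : ℕ} (n : Fin k → ℕ) (j : Fin k) (m : ℕ) : Fin k → ℕ := Function.update n j m

/-! ### transfer -/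

theorem saw_iff {A : ℤ × ℤ → ℤ × ℤ → Prop} (Z : TH966.AK.Rule A) {L : Lattice} (hA : Adj L = A)
    (m : ℕ) (w : List (ℤ × ℤ)) : IsSAW L m w ↔ w ∈ TH966.AK.Kw A m := by
  rw [Z.mem_K]
  unfold IsSAW TH966.AK.Walk
  rw [hA]

theorem c_eq {A : ℤ × ℤ → ℤ × ℤ → Prop} (Z : TH966.AK.Rule A) {L : Lattice} (hA : Adj L = A)
    (m : ℕ) : c L m = ((TH966.AK.Kw A m).card : ℝ) := by
  unfold c
  congr 1
  rw [← Fintype.card_coe, ← Nat.card_eq_fintype_card]
  exact Nat.card_congr (Equiv.subtypeEquivRight (saw_iff Z hA m))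

theorem S_eq {A : ℤ × ℤ → ℤ × ℤ → Prop} (Z : TH966.AK.Rule A) {L : Lattice} (hA : Adj L = A)
    {k : ℕ} (n : Fin k → ℕ) (D : Set (ℤ × ℤ)) :
    S L n D = (Nat.card {w : Fin k → List (ℤ × ℤ) // Q78.UR.Star.IsStar A n D w} : ℝ) := by
  unfold S IsStar Q78.UR.Star.IsStar
  simp only [saw_iff Z hA]

theorem transfer {A : ℤ × ℤ → ℤ × ℤ → Prop} {Z : TH966.AK.Rule A} {μ K : ℝ}
    (G : TH966.AK.Growth Z μ K) (L : Lattice) (hA : Adj L = A) (hs : Z.s = step L) :
    ∃ (μ C δ : ℝ) (N : ℕ), 0 < μ ∧ 0 < C ∧ 0 < δ ∧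
      Tendsto (fun m : ℕ => c L m ^ ((1 : ℝ) / m)) atTop (𝓝 μ) ∧
      ∀ (k : ℕ) (Ω : Type) [MeasurableSpace Ω] (ν : Measure Ω) [IsProbabilityMeasure ν]
        (D : Ω → Set (ℤ × ℤ)), IsRandomSet D → ∀ (n : Fin k → ℕ) (j : Fin k),
        (N ≤ n j → Real.exp (-δ * n j) ≤ p L ν D n →
          |F L ν D (up n j (n j + step L)) / (μ ^ step L * F L ν D n) - 1| ≤
            C * √((Real.log (1 / p L ν D n) + Real.log (n j) ^ 2) / n j) ∧
          ∀ D' : Ω → Set (ℤ × ℤ), IsRandomSet D' → (∀ ω, D' ω ⊆ D ω) →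
            |F L ν D' (up n j (n j + step L)) / F L ν D (up n j (n j + step L)) -
              F L ν D' n / F L ν D n| ≤
            C * √((Real.log (1 / p L ν D n) + Real.log (n j) ^ 2) / n j)) ∧
        ∀ m : ℕ, 2 ≤ n j → n j ≤ m → step L ∣ m - n j →
          |p L ν D (up n j m) - p L ν D n| ≤ C * ((m - n j : ℝ) * Real.log (n j) / √(n j : ℝ)) := by
  have hF : ∀ {Ω : Type} [MeasurableSpace Ω] (ν : Measure Ω) (D : Ω → Set (ℤ × ℤ)) {k : ℕ}
      (n : Fin k → ℕ), F L ν D n = Q78.UR.Star.FS A ν D n := by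
    intro Ω _ ν D k n
    unfold F Q78.UR.Star.FS
    simp only [S_eq Z hA]
  have hp : ∀ {Ω : Type} [MeasurableSpace Ω] (ν : Measure Ω) (D : Ω → Set (ℤ × ℤ)) {k : ℕ}
      (n : Fin k → ℕ), p L ν D n = Q78.UR.Star.PS A ν D n := by
    intro Ω _ ν D k n
    unfold p Q78.UR.Star.PS
    simp only [hF, c_eq Z hA]
  obtain ⟨C, δ, N, hC, hδ, hN, h⟩ := Q78.UR.Star.main G
  refine ⟨μ, C, δ, N, by linarith [G.hμ], hC, hδ, ?_, ?_⟩
  · simp only [c_eq Z hA]
    exact Q78.UR.root_tendsto G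
  · intro k Ω _ ν _ D hD n j
    simp only [hF, hp]
    have := h k Ω ν D hD n j
    rw [hs] at this
    exact this

theorem adj_square : Adj .square = Q78.UR.Sq.A := by
  funext p q
  show (q - p ∈ ({(1, 0), (-1, 0), (0, 1), (0, -1)} : Set (ℤ × ℤ))) = _
  unfold Q78.UR.Sq.A Q78.UR.Sq.dirs
  simp only [Set.mem_insert_iff, Set.mem_singleton_iff, Finset.mem_insert, Finset.mem_singleton]

/-- **Main result.** First part: any number of arms in a random set. Second part: four arms on the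
square lattice (arms with no step are allowed, so this contains two and three arms). -/
theorem result : (∀ L : Lattice, ∃ (μ C δ : ℝ) (N : ℕ), 0 < μ ∧ 0 < C ∧ 0 < δ ∧
      Tendsto (fun m : ℕ => c L m ^ ((1 : ℝ) / m)) atTop (𝓝 μ) ∧
      ∀ (k : ℕ) (Ω : Type) [MeasurableSpace Ω] (ν : Measure Ω) [IsProbabilityMeasure ν]
        (D : Ω → Set (ℤ × ℤ)), IsRandomSet D → ∀ (n : Fin k → ℕ) (j : Fin k),
        (N ≤ n j → Real.exp (-δ * n j) ≤ p L ν D n →
          |F L ν D (up n j (n j + step L)) / (μ ^ step L * F L ν D n) - 1| ≤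
            C * √((Real.log (1 / p L ν D n) + Real.log (n j) ^ 2) / n j) ∧
          ∀ D' : Ω → Set (ℤ × ℤ), IsRandomSet D' → (∀ ω, D' ω ⊆ D ω) →
            |F L ν D' (up n j (n j + step L)) / F L ν D (up n j (n j + step L)) -
              F L ν D' n / F L ν D n| ≤
            C * √((Real.log (1 / p L ν D n) + Real.log (n j) ^ 2) / n j)) ∧
        ∀ m : ℕ, 2 ≤ n j → n j ≤ m → step L ∣ m - n j →
          |p L ν D (up n j m) - p L ν D n| ≤
            C * ((m - n j : ℝ) * Real.log (n j) / √(n j : ℝ))) ∧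
    ∃ (μ C δ : ℝ) (N : ℕ), 0 < μ ∧ 0 < C ∧ 0 < δ ∧
      Tendsto (fun m : ℕ => c .square m ^ ((1 : ℝ) / m)) atTop (𝓝 μ) ∧
      ∀ (n : Fin 4 → ℕ) (j : Fin 4), N ≤ n j →
        ∑ i, Real.log ((n i : ℝ) + 2) ^ 3 ≤ δ * n j →
        |S .square (up n j (n j + 2)) Set.univ / (μ ^ 2 * S .square n Set.univ) - 1| ≤
          C * √((∑ i, Real.log ((n i : ℝ) + 2) ^ 3) / n j) ∧
        ∀ U : Set (ℤ × ℤ),
          |S .square (up n j (n j + 2)) U / S .square (up n j (n j + 2)) Set.univ -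
            S .square n U / S .square n Set.univ| ≤
          C * √((∑ i, Real.log ((n i : ℝ) + 2) ^ 3) / n j) := by
  refine ⟨fun L => ?_, ?_⟩
  · cases L with
    | square =>
      obtain ⟨K, G⟩ := Q78.UR.Sq.growth
      exact transfer G .square adj_square rfl
    | hexagonal =>
      obtain ⟨_, K, G⟩ := TH966.AK.hex_growth _ (fun n => rfl)
      exact transfer G .hexagonal TH966.AK.adjH_eq rfl
    | triangular =>
      obtain ⟨_, K, G⟩ := TH966.AK.tri_growth _ (fun n => rfl) _ rfl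
      exact transfer G .triangular TH966.AK.adjT_eq rfl
  · obtain ⟨K, G⟩ := Q78.UR.Sq.growth
    obtain ⟨C, δ, N, hC, hδ, h⟩ := Q78.UR.Star.four
    refine ⟨H981.mu, C, δ, N, by linarith [G.hμ], hC, hδ, ?_, ?_⟩
    · simp only [c_eq Q78.UR.Sq.rule adj_square]
      exact Q78.UR.root_tendsto G
    · intro n j hn hsum
      simp only [S_eq Q78.UR.Sq.rule adj_square]
      exact h n j hn hsum

end Pool.Agent.Results.MP_8c6f77_pr.StarRatios
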