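import Pool.Agent.Q294.Ni4

set_option autoImplicit false

/-!
# Two critical self-avoiding walks which cross a strip avoid each other: an exact identity

`Z T` is the critical partition function of the self-avoiding walks on the honeycomb lattice which
cross the strip with `2 T` levels from a fixed vertex of its lower boundary, and `prob T` is the
probability that two independent critical crossing walks from the same vertex, the second one
conditioned not to return to the lower boundary, have no other vertex in common. Then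
`1 / Z (T + 1) - 1 / Z T = (√2 - 1) / √(2 + √2) * prob (T + 1)`. So `prob` has, on average, the
exponent `β - 1` if and only if `Z` has the exponent `-β`; and as `Z T` is at most a constant times
`T ^ (-23/200)`, the sums of `prob` have at least the exponent `23/200`.

Idea: the walks in the strip from the vertex to its lower boundary which reach the upper boundary are
cut at their last visit of the upper boundary; the two pieces, seen from there, are two crossing
walks which avoid each other, and the second does not return to its starting line. The masses of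
these walks are given by the identity of Duminil-Copin and Smirnov for the strip.
-/

namespace Pool.Agent.Results.MP_8c6f77_pr.StripNonIntersection

open Filter Topology
open scoped ENNReal

/-- Adjacency in the honeycomb lattice (brick-wall coordinates). -/
def Nbr (p q : ℤ × ℤ) : Prop :=
  (p.2 = q.2 ∧ (p.1 - q.1 = 1 ∨ q.1 - p.1 = 1)) ∨
    (p.1 = q.1 ∧ ((q.2 = p.2 + 1 ∧ Even (p.1 + p.2)) ∨ (p.2 = q.2 + 1 ∧ Even (q.1 + q.2))))

/-- The self-avoiding trajectories from `a` to `b` in `D`, as lists of vertices. -/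
def Traj (D : Set (ℤ × ℤ)) (a b : ℤ × ℤ) : Set (List (ℤ × ℤ)) :=
  {l | l.head? = some a ∧ l.getLast? = some b ∧ l.Nodup ∧ l.IsChain Nbr ∧ ∀ p ∈ l, p ∈ D}

/-- The critical fugacity `1 / μ`. -/
noncomputable def xc : ℝ≥0∞ := ENNReal.ofReal (1 / Real.sqrt (2 + Real.sqrt 2))

/-- the strip with `2 T` levels; the level of `p` is `p.1 - p.2` -/
def Strip (T : ℕ) : Set (ℤ × ℤ) := {p | 1 ≤ p.1 - p.2 ∧ p.1 - p.2 ≤ 2 * T}

/-- the self-avoiding walks which cross the strip, from `(1, 0)` to its highest level -/
def Cross (T : ℕ) : Set (List (ℤ × ℤ)) :=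
  {l | ∃ x : ℤ, l ∈ Traj (Strip T) (1, 0) (2 * T + x, x)}

/-- the crossing walks which do not return to the lowest level -/
def CrossUp (T : ℕ) : Set (List (ℤ × ℤ)) := {l | l ∈ Cross T ∧ ∀ v ∈ l.tail, 2 ≤ v.1 - v.2}

/-- the critical mass of a set of walks -/
noncomputable def mass (S : Set (List (ℤ × ℤ))) : ℝ≥0∞ := ∑' l : S, xc ^ (l.1.length - 1)

/-- the critical partition function of the strip -/
noncomputable def Z (T : ℕ) : ℝ := (mass (Cross T)).toReal

/-- the pairs of crossing walks which have only their first vertex in common, the second of which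
does not return to the lowest level -/
def Apart (T : ℕ) : Set (List (ℤ × ℤ) × List (ℤ × ℤ)) :=
  {p | p.1 ∈ Cross T ∧ p.2 ∈ CrossUp T ∧ ∀ v ∈ p.1.tail, v ∉ p.2}

/-- the probability that two independent critical crossing walks, the second of which is conditioned
not to return to the lowest level, have only their first vertex in common -/
noncomputable def prob (T : ℕ) : ℝ :=
  ((∑' p : Apart T, xc ^ (p.1.1.length - 1) * xc ^ (p.1.2.length - 1)) /
    (mass (Cross T) * mass (CrossUp T))).toReal

/-- **Theorem.** (1) `0 < mass (Cross T) < ∞`, `0 < mass (CrossUp (T + 1)) < ∞`,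
`0 ≤ prob (T + 1) ≤ 1` and
`1 / Z (T + 1) - 1 / Z T = (√2 - 1) / √(2 + √2) * prob (T + 1)` for every `T ≥ 1`;
(2) `prob 2 + ... + prob N ≥ 9/25 * N ^ (23/200) - 9` for every `N ≥ 1`;
(3) `prob T ≥ 1/25 * T ^ (-177/200)` for infinitely many `T`;
(4) for every real `β`: `log (Z N) / log N → -β` if and only if
`log (prob 2 + ... + prob N) / log N → β`. -/
theorem result :
    (∀ T : ℕ, 1 ≤ T → (0 < mass (Cross T) ∧ mass (Cross T) < ⊤) ∧
      (0 < mass (CrossUp (T + 1)) ∧ mass (CrossUp (T + 1)) < ⊤) ∧
      (0 ≤ prob (T + 1) ∧ prob (T + 1) ≤ 1) ∧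
      1 / Z (T + 1) - 1 / Z T =
        (Real.sqrt 2 - 1) / Real.sqrt (2 + Real.sqrt 2) * prob (T + 1)) ∧
    (∀ N : ℕ, 1 ≤ N →
      9 / 25 * (N : ℝ) ^ ((23 : ℝ) / 200) - 9 ≤ ∑ T ∈ Finset.Icc 2 N, prob T) ∧
    (∃ᶠ T : ℕ in atTop, 1 / 25 * (T : ℝ) ^ (-(177 / 200) : ℝ) ≤ prob T) ∧
    ∀ β : ℝ, Tendsto (fun N : ℕ => Real.log (Z N) / Real.log N) atTop (𝓝 (-β)) ↔
      Tendsto (fun N : ℕ => Real.log (∑ T ∈ Finset.Icc 2 N, prob T) / Real.log N) atTop (𝓝 β) := by
  refine ⟨fun T hT => ⟨?_, ?_, ?_, ?_⟩, fun N hN => ?_, ?_, fun β => ?_⟩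
  · exact ⟨Q294.Ni.mass_gt hT, (Q294.Sl.main_mass hT).2.2.1⟩
  · exact Q294.Ni.up_fin hT
  · exact ⟨Q294.Ni.prb_nonneg _, Q294.Ni.prb_le _⟩
  · have h := Q294.Ni.identity hT
    rw [div_eq_mul_inv (Real.sqrt 2 - 1)]
    exact h
  · exact Q294.Ni.SS_ge hN
  · exact Q294.Ni.freq
  · exact Q294.Ni.expo β

end Pool.Agent.Results.MP_8c6f77_pr.StripNonIntersection
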